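import Pool.Agent.K3h44.RQ.Stm4
import Pool.Agent.Y780.WQ.POLE1

/-!
# Brick CJ: the coefficients of the logarithmic derivative of a product

Adapted from `Pool/Agent/Y780/WQ/POLE1.lean` (there over `ZMod p`).
-/

set_option autoImplicit false

namespace Pool.Agent.K3h97.RQ

open Polynomial
open Pool.Agent.K3h44.RQ
open Pool.Agent.Y780.WQ (Eqm Eqm.rfl' der_rescale der_prod constantCoeff_rescale)

section
variable (κ : Type) [Field κ]

lemma coeff_exq (k : ℕ) : PowerSeries.coeff k (exq κ) = ((k.factorial : ℕ) : κ)⁻¹ :=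
  PowerSeries.coeff_mk _ _

lemma const_exq : PowerSeries.constantCoeff (exq κ) = 1 := by
  rw [← PowerSeries.coeff_zero_eq_constantCoeff_apply, coeff_exq]
  simp

lemma rescale_C' (c a : κ) : PowerSeries.rescale c (PowerSeries.C a) = PowerSeries.C a := by
  ext k
  rw [PowerSeries.coeff_rescale, PowerSeries.coeff_C]
  by_cases hk : k = 0
  · subst hk
    simp
  · rw [if_neg hk, mul_zero]

lemma X_dvd : (PowerSeries.X : PowerSeries κ) ∣ exq κ - 1 := by
  rw [PowerSeries.X_dvd_iff, map_sub, const_exq, map_one, sub_self]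

lemma eqm_of_dvd {N : ℕ} {g g' : Polynomial κ} (h : (X - 1) ^ N ∣ g - g') :
    Eqm N (aeval (exq κ) g) (aeval (exq κ) g') := by
  refine Eqm.of_dvd ?_
  rw [← map_sub]
  have h1 := map_dvd (aeval (exq κ)) h
  rw [map_pow, map_sub, aeval_X, map_one] at h1
  exact (pow_dvd_pow_of_dvd (X_dvd κ) N).trans h1

variable (p : ℕ) [CharP κ p]

lemma fac_ne (hp : p.Prime) {k : ℕ} (hk : k < p) : ((k.factorial : ℕ) : κ) ≠ 0 := by
  rw [Ne, CharP.cast_eq_zero_iff κ p, hp.dvd_factorial]
  omega

lemma res_add (hp : p.Prime) (c c' : κ) :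
    Eqm p (PowerSeries.rescale c (exq κ) * PowerSeries.rescale c' (exq κ))
      (PowerSeries.rescale (c + c') (exq κ)) := by
  intro k hk
  rw [PowerSeries.coeff_mul, PowerSeries.coeff_rescale, coeff_exq, (Commute.all c c').add_pow',
    Finset.sum_mul]
  refine Finset.sum_congr rfl fun x hx => ?_
  have hx' := Finset.HasAntidiagonal.mem_antidiagonal.1 hx
  rw [PowerSeries.coeff_rescale, PowerSeries.coeff_rescale, coeff_exq, coeff_exq]
  have h1 := fac_ne κ p hp (k := x.1) (by omega)
  have h2 := fac_ne κ p hp (k := x.2) (by omega)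
  have h3 := fac_ne κ p hp hk
  have h4 : ((k.choose x.1 : ℕ) : κ) * (x.1.factorial : ℕ) * (x.2.factorial : ℕ) =
      (k.factorial : ℕ) := by
    have := Nat.choose_mul_factorial_mul_factorial (show x.1 ≤ k by omega)
    rw [show k - x.1 = x.2 by omega] at this
    rw [← Nat.cast_mul, ← Nat.cast_mul, this]
  rw [nsmul_eq_mul]
  field_simp
  rw [← h4]
  ring

lemma res_zero : PowerSeries.rescale (0 : κ) (exq κ) = 1 := by
  rw [PowerSeries.rescale_zero_apply, const_exq, map_one]

lemma exq_pow (hp : p.Prime) (s : ℕ) :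
    Eqm p (exq κ ^ s) (PowerSeries.rescale (s : κ) (exq κ)) := by
  induction s with
  | zero => rw [pow_zero, Nat.cast_zero, res_zero]; exact Eqm.rfl'
  | succ s ih =>
    rw [pow_succ, Nat.cast_succ]
    refine (ih.mul (Eqm.rfl' (A := exq κ))).trans ?_
    have h := res_add κ p hp (s : κ) 1
    rw [PowerSeries.rescale_one, RingHom.id_apply] at h
    exact h

lemma der_exq (hp : p.Prime) : Eqm (p - 1) (PowerSeries.derivative κ (exq κ)) (exq κ) := by
  intro k hk
  rw [PowerSeries.coeff_derivative, coeff_exq, coeff_exq, Nat.factorial_succ]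
  have h1 := fac_ne κ p hp (k := k) (by omega)
  have h2 := fac_ne κ p hp (k := k + 1) (by omega)
  rw [Nat.factorial_succ] at h2
  push_cast at h2 ⊢
  have h3 : ((k : κ) + 1) ≠ 0 := fun h => h2 (by rw [h, zero_mul])
  field_simp

lemma der_exq_pow (hp : p.Prime) (i : ℕ) :
    Eqm (p - 1) (PowerSeries.derivative κ (exq κ ^ i)) (PowerSeries.C (i : κ) * exq κ ^ i) := by
  rw [Derivation.leibniz_pow, smul_eq_mul, nsmul_eq_mul]
  rcases Nat.eq_zero_or_pos i with h0 | h0
  · subst h0
    simp only [Nat.cast_zero, zero_mul, map_zero]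
    exact Eqm.rfl'
  · obtain ⟨j, rfl⟩ : ∃ j, i = j + 1 := ⟨i - 1, by omega⟩
    have h1 : Eqm (p - 1) (((j + 1 : ℕ) : PowerSeries κ) *
        (exq κ ^ (j + 1 - 1) * PowerSeries.derivative κ (exq κ)))
        (((j + 1 : ℕ) : PowerSeries κ) * (exq κ ^ (j + 1 - 1) * exq κ)) :=
      Eqm.rfl'.mul (Eqm.rfl'.mul (der_exq κ p hp))
    refine h1.trans ?_
    rw [Nat.add_sub_cancel, ← pow_succ, map_natCast]
    exact Eqm.rfl'

end

/-- brick CJ -/
theorem t_CJ : S_CJ := by
  intro κ _ p _ hp hp5 ι H x y r ρ i _ hdvd hxy j hj hjp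
  classical
  set F : ι → PowerSeries κ := fun t => PowerSeries.C (x t) + PowerSeries.C (y t) * exq κ with hF
  set h : ι → PowerSeries κ := fun t => PowerSeries.derivative κ (F t) * (F t)⁻¹ with hh
  have hFc : ∀ t ∈ H, PowerSeries.constantCoeff (F t) ≠ 0 := by
    intro t ht
    have : PowerSeries.constantCoeff (F t) = x t + y t := by
      simp only [hF, map_add, map_mul, const_exq, PowerSeries.constantCoeff_C, mul_one]
    rw [this]
    exact hxy t ht
  have hdF : ∀ t ∈ H, PowerSeries.derivative κ (F t) = h t * F t := by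
    intro t ht
    simp only [hh]
    rw [mul_assoc, mul_comm (F t)⁻¹, PowerSeries.mul_inv_cancel _ (hFc t ht), mul_one]
  have hcum : ∀ t, Eqm (p - 1) (h t) (cumq (x t) (y t)) := by
    intro t
    have e1 : PowerSeries.derivative κ (F t) =
        PowerSeries.C (y t) * PowerSeries.derivative κ (exq κ) := by
      simp only [hF]
      rw [map_add, PowerSeries.derivative_C, zero_add, Derivation.leibniz,
        PowerSeries.derivative_C, smul_zero, add_zero, smul_eq_mul]
    simp only [hh]
    rw [e1, cumq]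
    exact (Eqm.rfl'.mul (der_exq κ p hp)).mul Eqm.rfl'
  set P : PowerSeries κ := ∏ t ∈ H, PowerSeries.rescale (r t : κ) (F t) with hP
  set U : PowerSeries κ :=
    ∑ t ∈ H, PowerSeries.C (r t : κ) * PowerSeries.rescale (r t : κ) (h t) with hU
  have h1 : Eqm (p - 1) P (PowerSeries.C ρ * exq κ ^ i) := by
    have h2 := eqm_of_dvd κ hdvd
    rw [map_mul, map_pow, aeval_X, aeval_C, map_prod] at h2
    refine Eqm.trans ?_ h2
    refine Eqm.prod _ fun t _ => ?_
    have h3 : Eqm (p - 1) (PowerSeries.rescale (r t : κ) (F t))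
        (PowerSeries.C (x t) + PowerSeries.C (y t) * exq κ ^ (r t)) := by
      simp only [hF]
      rw [map_add, map_mul, rescale_C', rescale_C']
      exact Eqm.rfl'.add (Eqm.rfl'.mul ((exq_pow κ p hp (r t)).symm.mono (by omega)))
    refine h3.trans ?_
    rw [map_add, map_mul, map_pow, aeval_X, aeval_C, aeval_C]
    exact Eqm.rfl'
  have h4 : PowerSeries.derivative κ P = U * P := by
    refine der_prod _ _ _ fun t ht => ?_
    rw [der_rescale, hdF t ht, map_mul]
    ring
  have h5 : Eqm (p - 1 - 1) (U * P) (PowerSeries.C (i : κ) * P) := by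
    rw [← h4]
    refine h1.der.trans ?_
    rw [Derivation.leibniz, PowerSeries.derivative_C, smul_zero, add_zero, smul_eq_mul]
    have h6 : Eqm (p - 1 - 1) (PowerSeries.C ρ * PowerSeries.derivative κ (exq κ ^ i))
        (PowerSeries.C ρ * (PowerSeries.C (i : κ) * exq κ ^ i)) :=
      Eqm.rfl'.mul ((der_exq_pow κ p hp i).mono (by omega))
    refine h6.trans ?_
    have h7 : PowerSeries.C ρ * (PowerSeries.C (i : κ) * exq κ ^ i) =
        PowerSeries.C (i : κ) * (PowerSeries.C ρ * exq κ ^ i) := by ring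
    rw [h7]
    exact Eqm.rfl'.mul (h1.symm.mono (by omega))
  have hPc : PowerSeries.constantCoeff P ≠ 0 := by
    rw [hP, map_prod]
    refine Finset.prod_ne_zero_iff.2 fun t ht => ?_
    rw [constantCoeff_rescale]
    exact hFc t ht
  have h8 := (h5.cancel hPc) (j - 1) (by omega)
  rw [hU, map_sum, PowerSeries.coeff_C] at h8
  have h9 : (if j - 1 = 0 then (i : κ) else 0) = if j = 1 then (i : κ) else 0 := by
    by_cases hj1 : j = 1
    · rw [if_pos (by omega), if_pos hj1]
    · rw [if_neg (by omega), if_neg hj1]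
  rw [h9] at h8
  rw [← h8]
  refine Finset.sum_congr rfl fun t _ => ?_
  rw [PowerSeries.coeff_C_mul, PowerSeries.coeff_rescale, hcum t (j - 1) (by omega), ← mul_assoc,
    ← pow_succ', Nat.sub_add_cancel hj]

end Pool.Agent.K3h97.RQ
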